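import Mathlib
import Pool.Agent.H25.PI1

set_option autoImplicit false

namespace Pool.Agent.Results.MP_def589_lc.Indep

open Pool.Agent.Results.MP_674d90_lc.Safety Pool.Agent.H25.PI

lemma blk {q : Q} {x : ℕ → C} {y : ℕ → Fin 5} {m : ℕ} (h : x m = none) (n : ℕ)
    (k : ∀ i < n, x (m + 1 + i) = some (y i)) : R q x (m + 1 + n) = run y n := by
  induction n with
  | zero => simp [R, h, st, run]
  | succ n ih => rw [← add_assoc, R, ih fun i hi => k i (by omega), k n (by omega), run_succ]; rfl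

def nd' (N : ℕ) (x : Fin 2 × ℕ) : Fin 2 × ℕ :=
  (if x.2 % (2 * N + 3) = 0 ∨ x.2 % (2 * N + 3) = N + 2 then 0 else x.1, x.2 % (2 * N + 3))

def nd (N : ℕ) (c : Fin 2) (j : ℕ) : Set.range (nd' N) := ⟨_, (c, j), rfl⟩

lemma nd_eq {N : ℕ} {b c : Fin 2} {i j : ℕ} : nd N b i = nd N c j ↔
    i % (2 * N + 3) = j % (2 * N + 3) ∧
      (j % (2 * N + 3) = 0 ∨ j % (2 * N + 3) = N + 2 ∨ b = c) := by
  simp only [nd, nd', Subtype.ext_iff, Prod.ext_iff]
  rw [and_comm]
  refine and_congr_right fun h => ?_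
  rw [h]
  split_ifs <;> tauto

def ed (t : Fin 2 → ℕ) (N : ℕ) (c : Fin 2) (j : ℕ) : Set.range (nd' N) × C × Set.range (nd' N) :=
  (nd N c j, if j % (2 * N + 3) = 0 then none else some (col t N c (j % (2 * N + 3) - 1)),
    nd N c (j + 1))

lemma ed_mod {t : Fin 2 → ℕ} {N : ℕ} {c : Fin 2} {i j : ℕ} (h : i % (2 * N + 3) = j % (2 * N + 3)) :
    ed t N c i = ed t N c j := by
  simp only [ed, h, Prod.mk.injEq, nd_eq, or_true, and_true, true_and]
  rw [Nat.add_mod, h, ← Nat.add_mod]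

lemma md (N r i : ℕ) (h : i < 2 * N + 3) : (r * (2 * N + 3) + i) % (2 * N + 3) = i := by
  rw [Nat.mul_add_mod_self_right, Nat.mod_eq_of_lt h]

lemma shape {t : Fin 2 → ℕ} {N : ℕ} (h0 : ¬∃ j, t 0 = 2 ^ j) (h1 : ∃ j, t 1 = 2 ^ j)
    (ht : ∀ b, t b ≤ N) (e : ℕ → Set.range (nd' N) × C × Set.range (nd' N))
    (e0 : (e 0).1 = nd N 0 0) (he : ∀ i, e i ∈ (Set.range fun x : Fin 2 × ℕ => ed t N x.1 x.2) ∧
      (e i).2.2 = (e (i + 1)).1) : ∃ β : ℕ → Fin 2, (∀ j, e j = ed t N (β j) j) ∧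
      (∀ r, ∀ i ≤ N + 1, β (r * (2 * N + 3) + i) = β (r * (2 * N + 3))) ∧
      ∀ r, R (.lv 0 0) (fun i => (e i).2.1) ((r + 1) * (2 * N + 3)) = .dead ↔
        β (r * (2 * N + 3)) ≠ β (r * (2 * N + 3) + (N + 2)) := by
  have : ∀ j, ∃ c, e j = ed t N c j := fun j => by
    have aux : ∀ j c, (e j).1 = nd N c j → ∃ c, e j = ed t N c j := fun j c h => by
      obtain ⟨⟨x, y⟩, hx⟩ := (he j).1
      exact ⟨x, hx.symm.trans (ed_mod (nd_eq.1 ((congrArg Prod.fst hx).trans h)).1)⟩
    induction j with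
    | zero => exact aux 0 0 e0
    | succ j ih => obtain ⟨c, hc⟩ := ih; exact aux _ c (by rw [← (he j).2, hc]; rfl)
  choose β hβ using this
  have s : ∀ r i, i + 1 < 2 * N + 3 → i + 1 ≠ N + 2 →
      β (r * (2 * N + 3) + (i + 1)) = β (r * (2 * N + 3) + i) := fun r i a b => by
    have := (he (r * (2 * N + 3) + i)).2
    rw [hβ, hβ] at this
    have := (nd_eq.1 this).2
    rw [add_assoc, md N r _ a] at this
    omega
  have s1 : ∀ r, ∀ i ≤ N + 1, β (r * (2 * N + 3) + i) = β (r * (2 * N + 3)) := fun r i hi => by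
    induction i with
    | zero => rfl
    | succ i ih => rw [s r i (by omega) (by omega), ih (by omega)]
  have s2 : ∀ r, ∀ i ≤ N, β (r * (2 * N + 3) + (N + 2 + i)) = β (r * (2 * N + 3) + (N + 2)) :=
    fun r i hi => by
      induction i with
      | zero => rfl
      | succ i ih => rw [← add_assoc (N + 2), s r _ (by omega) (by omega), ih (by omega)]
  refine ⟨β, hβ, s1, fun r => ?_⟩
  rw [show (r + 1) * (2 * N + 3) = r * (2 * N + 3) + 1 + (2 * N + 2) by ring, blk (y := fun j =>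
    col t N (if j ≤ N then β (r * (2 * N + 3)) else β (r * (2 * N + 3) + (N + 2))) j)
    (by simp [hβ, ed]) _ fun i hi => ?_, run_eq h0 h1 ht _ _ _ fun _ _ => rfl]
  · have := ht (β (r * (2 * N + 3)))
    simp only [T]
    split_ifs <;> first | omega | simp [*]
  · simp only [hβ, ed]
    rw [add_assoc, md N r _ (by omega), if_neg (by omega), Nat.add_sub_cancel_left]
    split_ifs with c
    · rw [s1 r _ (by omega)]
    · rw [show 1 + i = N + 2 + (i - N - 1) by omega, s2 r _ (by omega)]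

theorem chr' (k : ℕ) : ¬Mem W' k True := by
  classical
  intro H
  obtain ⟨i, p, hp, per⟩ : ∃ i p, 0 < p ∧ ∀ f : Fin k → Fin k, ∀ n ≥ i, f^[n + p] = f^[n] := by
    obtain ⟨a, b, ne, h⟩ := Finite.exists_ne_map_eq_of_infinite
      fun (n : ℕ) (f : Fin k → Fin k) => f^[n]
    wlog lt : a < b generalizing a b
    · exact this b a ne.symm h.symm (by omega)
    refine ⟨a, b - a, by omega, fun f n hn => ?_⟩
    rw [show n + (b - a) = n - a + b by omega, Function.iterate_add, ← congrFun h f,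
      ← Function.iterate_add, show n - a + a = n by omega]
  have hn : i + p < 2 ^ (i + p) := Nat.lt_two_pow_self
  let t : Fin 2 → ℕ := ![2 ^ (i + p) + p, 2 ^ (i + p)]
  let N := 2 ^ (i + p) + p + i
  have h0 : ¬∃ j, t 0 = 2 ^ j := by
    rintro ⟨j, hj⟩
    have a : 2 ^ (i + p) < 2 ^ j := by rw [← hj]; simp [t, hp]
    have b : 2 ^ j < 2 ^ (i + p + 1) := by rw [← hj, pow_succ]; simp [t]; omega
    rw [Nat.pow_lt_pow_iff_right (by norm_num)] at a b
    omega
  have ht : ∀ b, t b ≤ N := fun b => by fin_cases b <;> simp [t, N]; omega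
  have : Finite (Set.range (nd' N)) := Set.Finite.subset
    ((Set.finite_univ (α := Fin 2)).prod (Set.finite_Iic (2 * N + 3))) (by
      rintro _ ⟨x, rfl⟩; simpa [nd'] using (Nat.mod_lt _ (by omega)).le)
  have : Nonempty (Set.range (nd' N)) := ⟨nd N 0 0⟩
  let E := Set.range fun x : Fin 2 × ℕ => ed t N x.1 x.2
  have hE : ∀ v, ∃ e ∈ E, e.1 = v := by rintro ⟨_, x, rfl⟩; exact ⟨_, ⟨x, rfl⟩, rfl⟩
  have m2 : (N + 2) % (2 * N + 3) = N + 2 := Nat.mod_eq_of_lt (by omega)
  have hL : ∀ c, nd N c (N + 2) = nd N 0 (N + 2) := fun c => by simp [nd_eq, m2]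
  obtain ⟨S, m, δ, hS, hc, hb, ho⟩ := H _ {nd N 0 (N + 2)} E hE
  have win : Wins W' {nd N 0 (N + 2)} E S (nd N 0 0) := by
    refine ho _ ⟨fun _ l => ed t N ((l.getLast?.map (·.1.1.1)).getD 0) (N + 2),
      fun u l v _ hv => ⟨⟨(_, _), rfl⟩, (hL _).trans hv.symm⟩, fun e he => ?_⟩
    obtain ⟨β, b1, b2, b3⟩ := shape h0 ⟨_, rfl⟩ ht e he.1 fun i => ⟨(he.2 i).1, (he.2 i).2.1⟩
    refine ⟨1, fun n hn ⟨x, y⟩ => ?_⟩
    have : n % (2 * N + 3) = 0 := by
      by_contra c
      simp [b1, ed, c] at x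
    obtain ⟨r, rfl⟩ : ∃ r, n = (r + 1) * (2 * N + 3) := by
      obtain ⟨r, rfl⟩ := Nat.dvd_of_mod_eq_zero this
      rcases r with _ | r
      · simp at hn
      · exact ⟨r, mul_comm _ _⟩
    refine (b3 r).1 y ?_
    have := (he.2 (r * (2 * N + 3) + (N + 2))).2.2 (by
      rw [b1]; simp [ed, nd_eq, md N r (N + 2) (by omega), m2])
    rw [show List.range (r * (2 * N + 3) + (N + 2)) = _ from
      List.range_succ (n := r * (2 * N + 3) + (N + 1)), List.map_append, b1] at this
    have := (nd_eq.1 (congrArg (·.2.2) this)).2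
    simp only [List.map_cons, List.map_nil, List.getLast?_append, List.getLast?_singleton,
      Option.some_or, Option.map_some, Option.getD_some, b1, ed, nd, nd',
      md N r (N + 1) (by omega), b2 r (N + 1) le_rfl] at this
    rw [if_neg (by omega), Nat.mod_eq_of_lt (by omega)] at this
    omega
  let f : C → Fin k → Fin k := fun c x => if h : ∃ e ∈ E, e.2.1 = c then δ x h.choose else x
  have hf : ∀ e ∈ E, ∀ x, δ x e = f e.2.1 x := fun e he x => by
    have h : ∃ e' ∈ E, e'.2.1 = e.2.1 := ⟨e, he, rfl⟩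
    simp only [f, dif_pos h]
    exact hc trivial x _ he _ h.choose_spec.1 h.choose_spec.2.symm
  have mem : ∀ m b, ∀ j ≤ N + 1, ((List.range (j + 1)).map (ed t N b)).foldl δ m =
      if j ≤ t b then (f (some 0))^[j] (f none m) else
      (f (some 0))^[j - t b - 1] (f (some 2) ((f (some 0))^[t b] (f none m))) := by
    intro m b j hj
    induction j with
    | zero => simpa [ed] using hf _ ⟨(b, 0), rfl⟩ m
    | succ j ih =>
      rw [List.range_succ, List.map_append, List.foldl_append, ih (by omega)]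
      simp only [List.map_cons, List.map_nil, List.foldl_cons, List.foldl_nil]
      rw [hf _ ⟨(b, j + 1), rfl⟩]
      simp only [ed, col, Nat.mod_eq_of_lt (show j + 1 < 2 * N + 3 by omega), show j ≤ N by omega,
        if_true, Nat.add_one_ne_zero, if_false, Nat.add_sub_cancel]
      rcases lt_trichotomy j (t b) with h | h | h
      · simp [h.le, h.ne, Nat.succ_le_of_lt h, Function.iterate_succ_apply']
      · simp [h]
      · rw [if_neg h.ne', if_neg (by omega), if_neg (by omega),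
          show j + 1 - t b - 1 = j - t b - 1 + 1 by omega, Function.iterate_succ_apply']
  have pa : ∀ u l b j, Path E u l (nd N 0 0) →
      Path E u (l ++ (List.range j).map (ed t N b)) (nd N b j) := fun u l b j h => by
    induction j with
    | zero => simpa [show nd N b 0 = nd N 0 0 by simp [nd_eq]] using h
    | succ j ih =>
      rw [List.range_succ, List.map_append, ← List.append_assoc]
      exact Path.snoc (e := ed t N b j) ih ⟨(b, j), rfl⟩
  have resp : ∀ u l, ∃ b : Fin 2, Path E u l (nd N 0 0) → ∃ c, b ≠ c ∧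
      S u (l ++ (List.range (N + 2)).map (ed t N b)) = ed t N c (N + 2) := fun u l => by
    by_cases h : Path E u l (nd N 0 0)
    swap
    · exact ⟨0, fun a => absurd a h⟩
    have same := hb _ _ _ _ _ (pa u l 0 _ h) (hL 1 ▸ pa u l 1 _ h) rfl (by
      rw [List.foldl_append, List.foldl_append, mem _ 0 _ le_rfl, mem _ 1 _ le_rfl,
        if_neg (by have := ht 0; omega),
        if_neg (by have := ht 1; omega), show N + 1 - t 0 - 1 = i by simp [t, N]; omega,
        show N + 1 - t 1 - 1 = i + p by simp [t, N]; omega, per _ _ le_rfl,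
        show t 0 = t 1 + p from rfl, per _ (t 1) (by simp [t]; omega)])
    obtain ⟨⟨⟨c, y⟩, hy⟩, h2⟩ := hS _ _ _ (pa u l 0 _ h) rfl
    have hy' := hy.symm.trans (ed_mod (nd_eq.1 ((congrArg Prod.fst hy).trans h2)).1)
    fin_cases c
    · exact ⟨1, fun _ => ⟨0, by simp, same.symm.trans hy'⟩⟩
    · exact ⟨0, fun _ => ⟨1, by simp, hy'⟩⟩
  choose B hB using resp
  choose o o1 o2 using hE
  obtain ⟨e, he, -⟩ := extend (P := Set.univ) (S := fun u l => if last u l = nd N 0 (N + 2) then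
    S u l else if last u l = nd N 0 0 then ed t N (B u l) 0 else o (last u l))
    (fun v => ⟨_, o1 v, o2 v⟩) (fun u l v h _ => by
      simp only [h.last]
      split_ifs with c d
      · exact hS u l v h c
      · exact ⟨⟨(_, 0), rfl⟩, by simp [d, ed, nd_eq]⟩
      · exact ⟨o1 _, o2 _⟩) (nd N 0 0) 0 (fun _ => S (nd N 0 0) []) (by simp)
  have e1 := fun i => (he.2 i).2.2 trivial
  simp only [(he.path _).last] at e1
  obtain ⟨M, hM⟩ := win e ⟨he.1, fun i => ⟨(he.2 i).1, (he.2 i).2.1,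
    fun c => (e1 i).trans (if_pos c)⟩⟩
  obtain ⟨β, b1, b2, b3⟩ := shape h0 ⟨_, rfl⟩ ht e he.1 fun i => ⟨(he.2 i).1, (he.2 i).2.1⟩
  refine hM ((M + 1) * (2 * N + 3)) (by nlinarith) ⟨by simp [b1, ed], (b3 M).2 ?_⟩
  have n0 : (e (M * (2 * N + 3))).1 = nd N 0 0 := by simp [b1, ed, nd_eq]
  have a := e1 (M * (2 * N + 3))
  rw [n0, if_neg (by simp [nd_eq, m2]), if_pos rfl] at a
  obtain ⟨c, c1, c2⟩ := hB _ _ (n0 ▸ he.path (M * (2 * N + 3)))
  generalize B _ _ = b at a c1 c2
  have hb : β (M * (2 * N + 3)) = b := by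
    have := (nd_eq.1 (congrArg (·.2.2) ((b1 _).symm.trans a))).2
    rw [Nat.mod_eq_of_lt (by omega)] at this
    omega
  have d := e1 (M * (2 * N + 3) + (N + 2))
  rw [if_pos (by rw [b1]; simp [ed, nd_eq, md N M (N + 2) (by omega), m2]), List.range_add,
    List.map_append, List.map_map,
    List.map_congr_left (l := List.range (N + 2)) (g := ed t N b) fun j hj => by
      have := List.mem_range.1 hj
      rw [Function.comp_apply, b1, b2 M j (by omega), hb]
      exact ed_mod (by rw [md N M j (by omega), Nat.mod_eq_of_lt (by omega)]), c2, b1] at d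
  have := (nd_eq.1 (congrArg (·.2.2) d)).2
  rw [Nat.mod_eq_of_lt (by omega)] at this
  omega

theorem result : ∃ W : Set (ℕ → Option (Fin 5)),
    (∀ (x : ℕ → Option (Fin 5)) (k : ℕ), (fun n => x (n + k)) ∈ W ↔ x ∈ W) ∧
      Mem W 3 False ∧ ∀ k, ¬Mem W k True :=
  ⟨W', indep, gen3, chr'⟩

end Pool.Agent.Results.MP_def589_lc.Indep
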